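import Mathlib
import Pool.Agent.R439.QLam
import Pool.Agent.R439.QWatson

set_option autoImplicit false

namespace Pool.Agent.Results.MP_c25fd9_nt.LiuAnalogue

open Finset Polynomial Pool.Agent.R439

/-- The summand `a_k(q)` of the problem. -/
noncomputable def a (k : ℕ) : K :=
  poch q (q ^ 2) k ^ 2 * poch (q ^ 2) (q ^ 4) k * q ^ (2 * k) /
    (poch (q ^ 2) (q ^ 2) k ^ 2 * poch (q ^ 4) (q ^ 4) k)

/-- `C_n(q) = [n] (q^3;q^4)_((n-1)/2)/(q^5;q^4)_((n-1)/2)`. -/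
noncomputable def C (n : ℕ) : K :=
  qint n * poch (q ^ 3) (q ^ 4) ((n - 1) / 2) / poch (q ^ 5) (q ^ 4) ((n - 1) / 2)

/-- The rational number `T_m`. -/
def T (m : ℕ) : ℚ := ∑ k ∈ range m, rf (1 / 2) k ^ 3 / (k.factorial : ℚ) ^ 3

section
variable {n M t : ℕ} [NeZero n]

theorem a_eq (k : ℕ) : a k = q ^ (2 * k) *
    (poch (q ^ 1) (q ^ (2 * 1)) k / poch (q ^ (2 * 1)) (q ^ (2 * 1)) k) ^ 2 *
    (poch (q ^ 2) (q ^ (2 * 2)) k / poch (q ^ (2 * 2)) (q ^ (2 * 2)) k) := by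
  have e1 : (q ^ (2 * 1) : K) = q ^ 2 := by norm_num
  have e2 : (q ^ (2 * 2) : K) = q ^ 4 := by norm_num
  rw [a, e1, e2, pow_one, div_pow, div_eq_mul_inv, div_eq_mul_inv, div_eq_mul_inv, mul_inv]
  ring

/-- terms of a block -/
noncomputable def tt (n : ℕ) (j : ℤ) (i : ℕ) : K :=
  q ^ (2 * i) * (g1 n 1 i (2 * j) * g1 n 1 i (2 * j) * ((g2 n 1 i (2 * j))⁻¹ * (g2 n 1 i (2 * j))⁻¹)) *
    (g1 n 2 i (4 * j) * (g2 n 2 i (4 * j))⁻¹)

/-- exactly summable terms -/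
noncomputable def ss (n : ℕ) (j : ℤ) (i : ℕ) : K :=
  q ^ (2 * i) * (g1 n 1 i (-1) * g1 n 1 i (4 * j + 1) * ((g2 n 1 i 0)⁻¹ * (g2 n 1 i (4 * j))⁻¹)) *
    (g1 n 2 i (4 * j) * (g2 n 2 i (4 * j))⁻¹)

theorem hr2 (hn : n = 2 * M + 1) : Nat.Coprime n 2 := by
  rw [Nat.coprime_two_right]; exact ⟨M, by omega⟩

theorem tt_ss (hn : n = 2 * M + 1) (j : ℤ) {i : ℕ} (hi : i < n) :
    EQ n 2 (tt n j i) (ss n j i) := by
  have h1 := Nat.coprime_one_right n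
  unfold tt ss
  refine ((EQ.refl (pow_mem' _)).mul (EQ.mul ?_ ?_)).mul (EQ.refl ?_)
  · exact (gp_aff (n := n) (pow_mem' _) _ i).mul_two _ _ _ _ (by ring)
  · exact ((gp_aff (n := n) (pow_mem' _) _ i).inv fun s => g2_U hn h1 hi s).mul_two
      _ _ _ _ (by ring)
  · exact mul_mem ((gp_aff (pow_mem' _) _ _).mem _) (g2_U hn (hr2 hn) hi _).2.2

/-- value of the exactly summable block -/
noncomputable def FF (n t : ℕ) (j : ℤ) : K :=
  q ^ (2 * (t : ℤ) + n * (4 * j * t)) * (poch (q ^ 2) (q ^ 4) t / gp n 4 (q ^ 4) t (4 * j)) ^ 2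

theorem ss_sum (hn : n = 2 * M + 1) (hM : M = 2 * t) (j : ℕ) :
    ∑ i ∈ range (M + 1), ss n j i = FF n t j := by
  have hnz : (n : ℤ) = 4 * t + 1 := by rw [hn, hM]; push_cast; ring
  have hp0 : (q ^ 2 : K) ≠ 0 := pow_ne_zero _ q_ne
  have hp : ∀ i : ℕ, 0 < i → (q ^ 2 : K) ^ i ≠ 1 := qB_ne one_pos
  set A : K := q ^ ((n : ℤ) * (4 * j)) with hA
  set β : K := q ^ ((2 : ℤ) + n * (4 * j)) with hβ
  have hβ0 : β ≠ 0 := zpow_ne_zero _ q_ne
  have pw : ∀ (e : ℤ) (b i : ℕ), q ^ e * (q ^ b) ^ i = q ^ (e + b * i) := by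
    intro e b i
    have h0 : ((b * i : ℕ) : ℤ) = b * i := by push_cast; ring
    rw [← pow_mul, ← zpow_natCast q (b * i), ← zpow_add₀ q_ne, h0]
  have hA1 : ∀ i : ℕ, 0 < i → A * (q ^ 2) ^ i ≠ 1 := by
    intro i hi
    rw [hA, pw]
    apply q_zpow_ne_one
    have : (0 : ℤ) ≤ n * (4 * j) := by positivity
    have : (0 : ℤ) < i := by exact_mod_cast hi
    push_cast
    omega
  have hβ1 : ∀ i : ℕ, β * (q ^ 2) ^ i ≠ 1 := by
    intro i
    rw [hβ, pw]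
    apply q_zpow_ne_one
    positivity
  have hsum := qwatson hp0 hp hA1 hβ1 hβ0 t (M + 1) (by omega)
  have h22 : ((q ^ 2) ^ 2 : K) = q ^ 4 := by rw [← pow_mul]
  have hterm : ∀ i ∈ range (M + 1), ss n j i = TW (q ^ 2) A β t i := by
    intro i _
    rw [ss, TW, hw, tc, h22]
    have t1 : g1 n 1 i (-1) = poch ((q ^ 2) ^ (-((2 * t : ℕ) : ℤ))) (q ^ 2) i := by
      rw [g1, gp]
      congr 1
      rw [← zpow_natCast q 2, ← zpow_mul]; congr 1; rw [hnz]; push_cast; ring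
    have t2 : g1 n 1 i (4 * j + 1) = poch (A * (q ^ 2) ^ (2 * t + 1)) (q ^ 2) i := by
      rw [g1, gp, hA, pw]
      congr 2; rw [hnz]; push_cast; ring
    have t3 : g2 n 1 i 0 = poch (q ^ 2) (q ^ 2) i := by
      rw [g2, gp, mul_zero, add_zero, zpow_natCast, mul_one]
    have t4 : g2 n 1 i (4 * j) = poch β (q ^ 2) i := by
      rw [g2, gp, hβ]; push_cast; rfl
    have t5 : g1 n 2 i (4 * j) = poch β (q ^ 4) i := by
      rw [g1, gp, hβ]; push_cast; rfl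
    have t6 : g2 n 2 i (4 * j) = poch (A * q ^ 4) (q ^ 4) i := by
      rw [g2, gp, hA]
      congr 1
      rw [← zpow_natCast q 4, ← zpow_add₀ q_ne]; congr 1; push_cast; ring
    rw [t1, t2, t3, t4, t5, t6, pow_mul, div_eq_mul_inv, div_eq_mul_inv, mul_inv]
    ring
  rw [sum_congr rfl hterm, hsum, h22, FF]
  have e1 : A * q ^ 4 / β = q ^ 2 := by
    rw [hA, hβ, ← zpow_natCast q 4, ← zpow_add₀ q_ne, ← zpow_sub₀ q_ne, ← zpow_natCast q 2]
    congr 1; push_cast; ring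
  have e2 : poch (A * q ^ 4) (q ^ 4) t = gp n 4 (q ^ 4) t (4 * j) := by
    rw [gp, hA]
    congr 1
    rw [← zpow_natCast q 4, ← zpow_add₀ q_ne]; congr 1; push_cast; ring
  have e3 : poch (β * q ^ 2) (q ^ 4) t = gp n 4 (q ^ 4) t (4 * j) := by
    rw [gp, hβ]
    congr 1
    rw [← zpow_natCast q 2, ← zpow_add₀ q_ne]; congr 1; push_cast; ring
  have e4 : β ^ t = q ^ (2 * (t : ℤ) + n * (4 * j * t)) := by
    rw [hβ, ← zpow_natCast (q ^ (_ : ℤ)) t, ← zpow_mul]; congr 1; ring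
  rw [e1, e2, e3, e4, div_pow]
  ring

theorem nd (hn : n = 2 * M + 1) (hM : M = 2 * t) (e : ℤ) (he : 1 ≤ e) (he4 : e ≤ 4) :
    ∀ l < t, ¬ (n : ℤ) ∣ e + ((4 : ℕ) : ℤ) * l := by
  intro l hl h
  have := Int.le_of_dvd (by positivity) h
  push_cast at this
  omega

/-- pairing of logarithmic derivatives -/
theorem pair (hn : n = 2 * M + 1) (hM : M = 2 * t) (e e' : ℤ) (h : e + e' = 5) (he : 1 ≤ e)
    (he' : 1 ≤ e') : EQ n 1 (LL e ((4 : ℕ) : ℤ) t + LL e' ((4 : ℕ) : ℤ) t) (-(t : K)) := by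
  have hnz : (n : ℤ) = 4 * t + 1 := by rw [hn, hM]; push_cast; ring
  have h1 : LL e' ((4 : ℕ) : ℤ) t =
      ∑ l ∈ range t, lam (e' + ((4 : ℕ) : ℤ) * ((t - 1 - l : ℕ) : ℤ)) := by
    rw [LL]
    exact (sum_range_reflect (fun l : ℕ => lam (e' + ((4 : ℕ) : ℤ) * l)) t).symm
  rw [h1, LL, ← sum_add_distrib]
  have h2 : -(t : K) = ∑ l ∈ range t, (-1 : K) := by
    rw [sum_const, card_range, nsmul_eq_mul]; ring
  rw [h2]
  refine EQ.sum fun l hl => ?_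
  have hl' := mem_range.1 hl
  have hnd := nd hn hM e he (by omega) l hl'
  have hnd' : ¬ (n : ℤ) ∣ -(e + ((4 : ℕ) : ℤ) * l) := by rwa [dvd_neg]
  have h3 := lam_shift (n := n) hnd' 1
  have e1 : -(e + ((4 : ℕ) : ℤ) * l) + n * 1 =
      e' + ((4 : ℕ) : ℤ) * ((t - 1 - l : ℕ) : ℤ) := by
    have : ((t - 1 - l : ℕ) : ℤ) = t - 1 - l := by omega
    rw [this, hnz]; push_cast; linarith
  rw [e1] at h3
  have h4 := (EQ.refl (n := n) (k := 1) (lam_mem hnd)).add h3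
  rwa [lam_neg (by rintro h0; exact hnd (h0 ▸ dvd_zero _))] at h4

theorem gpe_U (hn : n = 2 * M + 1) (hM : M = 2 * t) (e : ℤ) (he : 1 ≤ e) (he4 : e ≤ 4) (s : ℤ) :
    U n (gp n e (q ^ 4) t s) := by
  unfold gp poch
  refine U.prod fun l hl => ?_
  have e1 : q ^ (e + n * s) * (q ^ 4) ^ l = q ^ (e + ((4 : ℕ) : ℤ) * l + n * s) := by
    rw [← pow_mul, ← zpow_natCast q (4 * l), ← zpow_add₀ q_ne]; congr 1; push_cast; ring
  rw [e1]
  apply U_one_sub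
  intro h
  apply nd hn hM e he he4 l (mem_range.1 hl)
  have := dvd_sub h (dvd_mul_right (n : ℤ) s)
  simpa using this

theorem sum_two (f : ℕ → K) (t : ℕ) :
    ∑ l ∈ range (2 * t), f l = ∑ l ∈ range t, f (2 * l) + ∑ l ∈ range t, f (2 * l + 1) := by
  induction t with
  | zero => simp
  | succ t ih =>
    rw [show 2 * (t + 1) = 2 * t + 1 + 1 by ring, sum_range_succ, sum_range_succ, ih,
      sum_range_succ, sum_range_succ]
    ring

/-- `∑ lam (2+2l)` over `l < M` -/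
theorem L2a (t : ℕ) : LL ((2 * 1 : ℕ) : ℤ) ((2 * 1 : ℕ) : ℤ) (2 * t) =
    LL 2 ((4 : ℕ) : ℤ) t + LL 4 ((4 : ℕ) : ℤ) t := by
  rw [LL, sum_two, LL, LL]
  congr 1
  · refine sum_congr rfl fun l _ => ?_
    congr 1; push_cast; ring
  · refine sum_congr rfl fun l _ => ?_
    congr 1; push_cast; ring

/-- `∑ lam (4+4l)` over `l < M` -/
theorem L2b (hn : n = 2 * M + 1) (hM : M = 2 * t) :
    EQ n 1 (LL ((2 * 2 : ℕ) : ℤ) ((2 * 2 : ℕ) : ℤ) M) (LL 4 ((4 : ℕ) : ℤ) t + LL 3 ((4 : ℕ) : ℤ) t) := by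
  have hnz : (n : ℤ) = 4 * t + 1 := by rw [hn, hM]; push_cast; ring
  rw [hM, two_mul t, LL, sum_range_add]
  have h1 : ∑ x ∈ range t, lam (((2 * 2 : ℕ) : ℤ) + ((2 * 2 : ℕ) : ℤ) * (x : ℤ)) = LL 4 ((4 : ℕ) : ℤ) t := rfl
  rw [h1]
  refine (EQ.refl (LL_mem (nd hn hM 4 (by norm_num) le_rfl))).add ?_
  rw [LL]
  refine EQ.sum fun l hl => ?_
  have h3 := lam_shift (n := n) (nd hn hM 3 (by norm_num) (by norm_num) l (mem_range.1 hl)) 1
  have e : (3 : ℤ) + ((4 : ℕ) : ℤ) * l + n * 1 = ((2 * 2 : ℕ) : ℤ) + ((2 * 2 : ℕ) : ℤ) * ((t + l : ℕ) : ℤ) := by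
    rw [hnz]; push_cast; ring
  rwa [e] at h3

/-- the value at `j = 0` -/
theorem FF_zero (hn : n = 2 * M + 1) (hM : M = 2 * t) : EQ n 2 (FF n t 0) (C n) := by
  have hnz : (n : ℤ) = 4 * t + 1 := by rw [hn, hM]; push_cast; ring
  have hn2 : (n - 1) / 2 = t + t := by omega
  have pw : ∀ (e : ℤ) (i : ℕ), q ^ e * (q ^ 4) ^ i = q ^ (e + 4 * i) := by
    intro e i
    have h0 : ((4 * i : ℕ) : ℤ) = 4 * i := by push_cast; ring
    rw [← pow_mul, ← zpow_natCast q (4 * i), ← zpow_add₀ q_ne, h0]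
  have hq1 : (1 - q : K) ≠ 0 := by simpa using one_sub_pow_ne one_ne_zero
  -- reflections
  have refl : ∀ e : ℤ, gp n (5 - e) (q ^ 4) t 0 =
      (-1) ^ t * (∏ l ∈ range t, q ^ ((n : ℤ) - e - 4 * l)) * gp n e (q ^ 4) t (-1) := by
    intro e
    rw [gp, gp, poch, poch, ← prod_range_reflect, ← card_range t, ← prod_const, card_range,
      ← prod_mul_distrib, ← prod_mul_distrib]
    refine prod_congr rfl fun l hl => ?_
    have hl' := mem_range.1 hl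
    rw [pw, pw]
    have h1 : ((t - 1 - l : ℕ) : ℤ) = t - 1 - l := by omega
    have h2 : (5 : ℤ) - e + n * 0 + 4 * ((t - 1 - l : ℕ) : ℤ) = n - e - 4 * l := by
      rw [h1, hnz]; ring
    have h3 : q ^ ((n : ℤ) - e - 4 * l) * q ^ (e + n * (-1) + 4 * l) = 1 := by
      rw [← zpow_add₀ q_ne]
      have : (n : ℤ) - e - 4 * l + (e + n * (-1) + 4 * l) = 0 := by ring
      rw [this, zpow_zero]
    rw [h2]
    linear_combination (-1 : K) * h3
  have r3 := refl 2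
  have r1 := refl 4
  have hC : C n = gp n 3 (q ^ 4) t 0 * gp n 2 (q ^ 4) t 1 /
      (gp n 1 (q ^ 4) t 0 * gp n 4 (q ^ 4) t 1) := by
    have h1 : poch (q ^ 3) (q ^ 4) (t + t) = gp n 3 (q ^ 4) t 0 * gp n 2 (q ^ 4) t 1 := by
      rw [poch_add, gp, gp]
      have e1 : q ^ 3 = q ^ ((3 : ℤ) + n * 0) := by rw [← zpow_natCast q 3]; norm_num
      rw [e1, pw]
      congr 2
      congr 1; rw [hnz]; ring
    have h2 : (1 - q) * poch (q ^ 5) (q ^ 4) (t + t) =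
        gp n 1 (q ^ 4) t 0 * (1 - q ^ n) * gp n 4 (q ^ 4) t 1 := by
      have e1 : (1 - q) * poch (q ^ 5) (q ^ 4) (t + t) = poch q (q ^ 4) (t + t + 1) := by
        rw [poch_succ', ← pow_succ']
      rw [e1, show t + t + 1 = t + 1 + t by ring, poch_add, poch_succ, gp, gp]
      have e2 : q = q ^ ((1 : ℤ) + n * 0) := by norm_num
      have e3 : q * (q ^ 4) ^ t = q ^ n := by
        rw [← pow_mul, ← pow_succ']; congr 1; omega
      have e4 : q * (q ^ 4) ^ (t + 1) = q ^ ((4 : ℤ) + n * 1) := by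
        rw [← pow_mul, ← pow_succ', ← zpow_natCast q]; congr 1; rw [hnz]; push_cast; ring
      rw [e3, e4]
      have e5 : poch q (q ^ 4) t = poch (q ^ ((1 : ℤ) + n * 0)) (q ^ 4) t := by rw [← e2]
      rw [e5]
    have h3 : poch (q ^ 5) (q ^ 4) (t + t) ≠ 0 := poch_ne fun i _ => by
      rw [← pow_mul, ← pow_add]; exact q_pow_ne_one (by omega)
    have hnq : (1 - q ^ n : K) ≠ 0 := one_sub_pow_ne (NeZero.ne n)
    have h4 := (gpe_U hn hM 1 le_rfl (by norm_num) 0).1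
    have h5 := (gpe_U hn hM 4 (by norm_num) le_rfl 1).1
    rw [C, hn2, h1, qint, zpow_natCast]
    have h6 : poch (q ^ 5) (q ^ 4) (t + t) =
        gp n 1 (q ^ 4) t 0 * (1 - q ^ n) * gp n 4 (q ^ 4) t 1 / (1 - q) := by
      rw [eq_div_iff hq1, mul_comm, h2]
    rw [h6]
    field_simp
  have hC2 : C n = q ^ (2 * (t : ℤ)) * ((gp n 2 (q ^ 4) t (-1) * gp n 2 (q ^ 4) t 1) *
      ((gp n 4 (q ^ 4) t (-1))⁻¹ * (gp n 4 (q ^ 4) t 1)⁻¹)) := by
    have s3 : (5 : ℤ) - 2 = 3 := by norm_num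
    have s1 : (5 : ℤ) - 4 = 1 := by norm_num
    rw [s3] at r3
    rw [s1] at r1
    have hprod : ∏ l ∈ range t, q ^ ((n : ℤ) - 2 - 4 * l) =
        q ^ (2 * (t : ℤ)) * ∏ l ∈ range t, q ^ ((n : ℤ) - 4 - 4 * l) := by
      have : q ^ (2 * (t : ℤ)) = ∏ l ∈ range t, (q ^ 2 : K) := by
        rw [prod_const, card_range, ← pow_mul, ← zpow_natCast]; push_cast; rfl
      rw [this, ← prod_mul_distrib]
      refine prod_congr rfl fun l _ => ?_
      rw [← zpow_natCast q 2, ← zpow_add₀ q_ne]; congr 1; push_cast; ring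
    have hne : ∏ l ∈ range t, q ^ ((n : ℤ) - 4 - 4 * l) ≠ 0 := by
      rw [prod_ne_zero_iff]; intro l _; exact zpow_ne_zero _ q_ne
    have h5 := (gpe_U hn hM 4 (by norm_num) le_rfl 1).1
    have h6 := (gpe_U hn hM 4 (by norm_num) le_rfl (-1)).1
    have hsg : ((-1 : K)) ^ t ≠ 0 := pow_ne_zero _ (by norm_num)
    rw [hC, r3, r1, hprod]
    field_simp
  rw [hC2, FF]
  have e0 : (2 * (t : ℤ) + n * (4 * 0 * t)) = 2 * t := by ring
  have e1 : poch (q ^ 2) (q ^ 4) t = gp n 2 (q ^ 4) t 0 := by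
    rw [gp, mul_zero, add_zero, ← zpow_natCast q 2]; rfl
  have e2 : gp n 4 (q ^ 4) t (4 * 0) = gp n 4 (q ^ 4) t 0 := by norm_num
  rw [e0, e1, e2]
  refine (EQ.refl (zpow_mem _)).mul ?_
  have h1 := (gp_aff (n := n) (pow_mem' 4) 2 t).mul_two 0 0 (-1) 1 (by norm_num)
  have h2 := ((gp_aff (n := n) (pow_mem' 4) 4 t).inv
    (fun s => gpe_U hn hM 4 (by norm_num) le_rfl s)).mul_two 0 0 (-1) 1 (by norm_num)
  have h3 := h1.mul h2
  have e3 : (gp n 2 (q ^ 4) t 0 / gp n 4 (q ^ 4) t 0) ^ 2 =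
      gp n 2 (q ^ 4) t 0 * gp n 2 (q ^ 4) t 0 * ((gp n 4 (q ^ 4) t 0)⁻¹ * (gp n 4 (q ^ 4) t 0)⁻¹) := by
    rw [div_eq_mul_inv]; ring
  rw [e3]
  exact h3

/-- dependence on the block index -/
theorem FF_exp (hn : n = 2 * M + 1) (hM : M = 2 * t) (j : ℤ) :
    EQ n 2 (FF n t j) (FF n t 0 * (1 + w n * (-((4 * j * t : ℤ) : K) +
      -(((4 * j : ℤ) : K) * LL 4 ((4 : ℕ) : ℤ) t + ((4 * j : ℤ) : K) * LL 4 ((4 : ℕ) : ℤ) t)))) := by
  set B : K := LL 4 ((4 : ℕ) : ℤ) t with hB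
  have hBm : B ∈ O n := LL_mem (nd hn hM 4 (by norm_num) le_rfl)
  have a1 := gp_exp (n := n) (b := 4) (nd hn hM 4 (by norm_num) le_rfl) (4 * j)
  rw [← hB] at a1
  have u1 := gpe_U hn hM 4 (by norm_num) le_rfl (4 * j)
  have u0 := gpe_U hn hM 4 (by norm_num) le_rfl 0
  have m1 : ((4 * j : ℤ) : K) * B ∈ O n := mul_mem (intCast_mem _ _) hBm
  have m0 : -((4 * j * t : ℤ) : K) ∈ O n := neg_mem (intCast_mem _ _)
  have a2 := (a1.mul a1).inv two_pos (u1.mul u1)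
  have c1 := ((exp_mul' m1 m1).inv two_pos ((exp_inv m1).1.mul (exp_inv m1).1)).trans
    (exp_inv (n := n) (add_mem m1 m1)).2
  have a3 : EQ n 2 (q ^ (2 * (t : ℤ) + n * (4 * j * t))) (q ^ (2 * (t : ℤ)) *
      (1 + w n * (-((4 * j * t : ℤ) : K)))) := by
    have h := (EQ.refl (n := n) (k := 2) (zpow_mem (2 * (t : ℤ)))).mul (Qs_eq (n := n) (4 * j * t))
    rw [← zpow_add₀ q_ne] at h
    have e : 1 - ((4 * j * t : ℤ) : K) * w n = 1 + w n * (-((4 * j * t : ℤ) : K)) := by ring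
    rwa [e] at h
  have c2 := ((EQ.refl (n := n) (k := 2) (show 1 + w n * (-((4 * j * t : ℤ) : K)) ∈ O n from
    add_mem (one_mem _) (mul_mem w_mem m0))).mul c1).trans
    (exp_mul' m0 (neg_mem (add_mem m1 m1)))
  have hPm : poch (q ^ 2) (q ^ 4) t ∈ O n := by
    unfold poch
    exact prod_mem fun l _ => sub_mem (one_mem _) (mul_mem (pow_mem' _) (pow_mem (pow_mem' _) _))
  have h := (a3.mul (EQ.refl (n := n) (k := 2) (mul_mem hPm hPm))).mul a2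
  have hFm : FF n t 0 ∈ O n := by
    rw [FF, div_eq_mul_inv]
    have e2 : gp n 4 (q ^ 4) t (4 * 0) = gp n 4 (q ^ 4) t 0 := by norm_num
    rw [e2]
    exact mul_mem (zpow_mem _) (pow_mem (mul_mem hPm u0.2.2) 2)
  have h2 := (EQ.refl (n := n) (k := 2) hFm).mul c2
  have e1 : q ^ (2 * (t : ℤ) + n * (4 * j * t)) * (poch (q ^ 2) (q ^ 4) t * poch (q ^ 2) (q ^ 4) t) *
      (gp n 4 (q ^ 4) t (4 * j) * gp n 4 (q ^ 4) t (4 * j))⁻¹ = FF n t j := by
    rw [FF, mul_inv, div_eq_mul_inv]; ring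
  have e3 : q ^ (2 * (t : ℤ)) * (1 + w n * (-((4 * j * t : ℤ) : K))) *
      (poch (q ^ 2) (q ^ 4) t * poch (q ^ 2) (q ^ 4) t) *
      (gp n 4 (q ^ 4) t 0 * (1 + w n * (((4 * j : ℤ) : K) * B)) *
        (gp n 4 (q ^ 4) t 0 * (1 + w n * (((4 * j : ℤ) : K) * B))))⁻¹ =
      FF n t 0 * ((1 + w n * (-((4 * j * t : ℤ) : K))) *
        ((1 + w n * (((4 * j : ℤ) : K) * B)) * (1 + w n * (((4 * j : ℤ) : K) * B)))⁻¹) := by
    have e2 : gp n 4 (q ^ 4) t (4 * 0) = gp n 4 (q ^ 4) t 0 := by norm_num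
    have e0 : (2 * (t : ℤ) + n * (4 * 0 * t)) = 2 * t := by ring
    rw [FF, e2, e0]
    simp only [mul_inv, div_eq_mul_inv]
    ring
  rw [e1, e3] at h
  exact h.trans h2

/-- the block congruence -/
theorem block_sum (hn : n = 2 * M + 1) (hM : M = 2 * t) (j : ℕ) :
    EQ n 2 (∑ i ∈ range n, a (j * n + i)) (C n * ((ch j : K)) ^ 3) := by
  have hr := hr2 hn
  have hr1 := Nat.coprime_one_right n
  have hMn : M < n := by omega
  have e1 : ∀ i : ℕ, a (j * n + i) =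
      q ^ ((n : ℤ) * (2 * j)) * RR n 1 j ^ 2 * RR n 2 j * tt n j i := by
    intro i
    have h := ratio_block (n := n) (r := 2) j i
    have h' := ratio_block (n := n) (r := 1) j i
    have h4 : (2 : ℤ) * j * ((2 : ℕ) : ℤ) = 4 * j := by push_cast; ring
    have h5 : (2 : ℤ) * j * ((1 : ℕ) : ℤ) = 2 * j := by push_cast; ring
    rw [h4] at h
    rw [h5] at h'
    rw [a_eq, h, h', tt]
    have e2 : (q ^ (2 * (j * n + i)) : K) = q ^ ((n : ℤ) * (2 * j)) * q ^ (2 * i) := by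
      rw [mul_add, pow_add, ← zpow_natCast q (2 * (j * n))]; congr 2; push_cast; ring
    rw [e2, div_eq_mul_inv, div_eq_mul_inv]
    ring
  rw [sum_congr rfl fun i _ => e1 i, ← mul_sum]
  have s2 : EQ n 2 (∑ i ∈ range n, tt n j i) (∑ i ∈ range (M + 1), ss n j i) := by
    have : ∑ i ∈ range n, tt n j i = ∑ i ∈ range (M + 1), tt n j i +
        ∑ i ∈ range M, tt n j (M + 1 + i) := by
      rw [← sum_range_add]; congr 1; rw [hn]; congr 1; ring
    rw [this]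
    have a1 : EQ n 2 (∑ i ∈ range (M + 1), tt n j i) (∑ i ∈ range (M + 1), ss n j i) :=
      EQ.sum fun i hi => tt_ss hn j (by have := mem_range.1 hi; omega)
    have a2 : EQ n 2 (∑ i ∈ range M, tt n j (M + 1 + i)) 0 := by
      apply EQ.of_I
      refine I.sum fun i hi => ?_
      have hi' := mem_range.1 hi
      have hlt : M + 1 + i < n := by omega
      unfold tt
      have b1 := g1_I hn 1 (i := M + 1 + i) (by omega) (2 * j)
      have b2 := g2_U hn hr1 hlt (2 * j)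
      have b3 := g2_U hn hr hlt (4 * j)
      refine I.mulR (I.mulL (pow_mem' _) ((b1.mul b1).mulR (mul_mem b2.2.2 b2.2.2))) ?_
      exact mul_mem ((gp_aff (pow_mem' _) _ _).mem _) b3.2.2
    have := a1.add a2
    rwa [add_zero] at this
  rw [ss_sum hn hM j] at s2
  have hF := FF_exp hn hM (j : ℤ)
  set B : K := LL 4 ((4 : ℕ) : ℤ) t with hB
  have hBm : B ∈ O n := LL_mem (nd hn hM 4 (by norm_num) le_rfl)
  set x : K := (-((4 * (j : ℤ) * t : ℤ) : K) +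
      -(((4 * (j : ℤ) : ℤ) : K) * B + ((4 * (j : ℤ) : ℤ) : K) * B)) with hx0
  have hx : x ∈ O n := add_mem (neg_mem (intCast_mem _ _)) (neg_mem (add_mem
    (mul_mem (intCast_mem _ _) hBm) (mul_mem (intCast_mem _ _) hBm)))
  have hRR1 := RR_exp hn one_pos hr1 j
  have hRR2 := RR_exp hn two_pos hr j
  have hQ := Qs_eq (n := n) (2 * (j : ℤ))
  have hj1 : (j : K) * xr 1 M ∈ O n := mul_mem (natCast_mem _ _) (xr_mem hn hr1)
  have hj2 : (j : K) * xr 2 M ∈ O n := mul_mem (natCast_mem _ _) (xr_mem hn hr)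
  have hjn : -((2 * (j : ℤ) : ℤ) : K) ∈ O n := neg_mem (intCast_mem _ _)
  have hch : (ch j : K) ∈ O n := rat_mem _
  have c2 := ((exp_mul' hj1 hj1).mul (EQ.refl (n := n) (k := 2)
    (show 1 + w n * ((j : K) * xr 2 M) ∈ O n from
    add_mem (one_mem _) (mul_mem w_mem hj2)))).trans (exp_mul' (add_mem hj1 hj1) hj2)
  have c3 : EQ n 2 (RR n 1 j ^ 2 * RR n 2 j) ((ch j : K) ^ 3 * (1 + w n * ((j : K) * xr 1 M +
      (j : K) * xr 1 M + (j : K) * xr 2 M))) := by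
    have h := (hRR1.pow 2).mul hRR2
    have e : ((ch j : K) * (1 + w n * ((j : K) * xr 1 M))) ^ 2 *
        ((ch j : K) * (1 + w n * ((j : K) * xr 2 M))) = (ch j : K) ^ 3 *
        ((1 + w n * ((j : K) * xr 1 M)) * (1 + w n * ((j : K) * xr 1 M)) *
          (1 + w n * ((j : K) * xr 2 M))) := by ring
    rw [e] at h
    exact h.trans ((EQ.refl (pow_mem hch 3)).mul c2)
  have h3jx : (j : K) * xr 1 M + (j : K) * xr 1 M + (j : K) * xr 2 M ∈ O n :=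
    add_mem (add_mem hj1 hj1) hj2
  have hQ' : EQ n 2 (q ^ ((n : ℤ) * (2 * j))) (1 + w n * (-((2 * (j : ℤ) : ℤ) : K))) := by
    have e : 1 + w n * (-((2 * (j : ℤ) : ℤ) : K)) = 1 - ((2 * (j : ℤ) : ℤ) : K) * w n := by ring
    rw [e]; exact hQ
  have hF0 := FF_zero hn hM
  have hF' : EQ n 2 (FF n t j) (C n * (1 + w n * x)) := hF.trans (hF0.mul (EQ.refl
    (add_mem (one_mem _) (mul_mem w_mem hx))))
  have hall := (hQ'.mul c3).mul (s2.trans hF')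
  have e4 : q ^ ((n : ℤ) * (2 * j)) * RR n 1 j ^ 2 * RR n 2 j * ∑ i ∈ range n, tt n j i =
      q ^ ((n : ℤ) * (2 * j)) * (RR n 1 j ^ 2 * RR n 2 j) * ∑ i ∈ range n, tt n j i := by ring
  rw [e4]
  refine hall.trans ?_
  have c4 := (exp_mul' hjn h3jx)
  have c5 := (c4.mul (EQ.refl (n := n) (k := 2) (show 1 + w n * x ∈ O n from
    add_mem (one_mem _) (mul_mem w_mem hx)))).trans (exp_mul' (add_mem hjn h3jx) hx)
  have hpre : C n * (ch j : K) ^ 3 ∈ O n := mul_mem hF0.2.1 (pow_mem hch 3)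
  have c6 := (EQ.refl (n := n) (k := 2) hpre).mul c5
  have e3 : (1 + w n * (-((2 * (j : ℤ) : ℤ) : K))) * ((ch j : K) ^ 3 * (1 + w n * ((j : K) * xr 1 M +
      (j : K) * xr 1 M + (j : K) * xr 2 M))) * (C n * (1 + w n * x)) =
      C n * (ch j : K) ^ 3 * ((1 + w n * (-((2 * (j : ℤ) : ℤ) : K))) * (1 + w n * ((j : K) * xr 1 M +
      (j : K) * xr 1 M + (j : K) * xr 2 M)) * (1 + w n * x)) := by ring
  rw [e3]
  refine c6.trans ?_
  set z : K := -((2 * (j : ℤ) : ℤ) : K) + ((j : K) * xr 1 M + (j : K) * xr 1 M + (j : K) * xr 2 M) + x with hz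
  have hz1 : EQ n 1 z 0 := by
    have hLa := LL_add hn hr1
    have hLb := LL_add hn hr
    have hb := L2b hn hM
    have ha := L2a t
    rw [← hM] at ha
    have hp := pair hn hM 3 2 (by norm_num) (by norm_num) (by norm_num)
    set L1a : K := LL ((1 : ℕ) : ℤ) ((2 * 1 : ℕ) : ℤ) M with hL1a
    set L2a' : K := LL ((2 * 1 : ℕ) : ℤ) ((2 * 1 : ℕ) : ℤ) M with hL2a
    set L1b : K := LL ((2 : ℕ) : ℤ) ((2 * 2 : ℕ) : ℤ) M with hL1b
    set L2b' : K := LL ((2 * 2 : ℕ) : ℤ) ((2 * 2 : ℕ) : ℤ) M with hL2b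
    rw [← hB] at ha hb
    set D : K := LL 2 ((4 : ℕ) : ℤ) t with hD
    set C3 : K := LL 3 ((4 : ℕ) : ℤ) t with hC3
    have hDm : D ∈ O n := LL_mem (nd hn hM 2 (by norm_num) (by norm_num))
    have hL2am : L2a' ∈ O n := LL_mem (nd2 hn hr1)
    have e5 : z = (j : K) * (-4 * t - 8 * B + 4 * L2a' + 4 * L2b' - 2 * (L1a + L2a') - 2 * (L1b + L2b')) := by
      rw [hz, hx0, xr, xr, ← hL1a, ← hL2a, ← hL1b, ← hL2b]
      push_cast; ring
    have hk : ∀ c : ℕ, (c : K) ∈ O n := fun c => natCast_mem _ _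
    have h2 : (2 : K) ∈ O n := by exact_mod_cast hk 2
    have h4 : (4 : K) ∈ O n := by exact_mod_cast hk 4
    have h8 : (8 : K) ∈ O n := by exact_mod_cast hk 8
    rw [e5]
    have hstep : EQ n 1 (-4 * t - 8 * B + 4 * L2a' + 4 * L2b' - 2 * (L1a + L2a') - 2 * (L1b + L2b')) 0 := by
      have s1 : EQ n 1 (-4 * t - 8 * B + 4 * L2a' + 4 * L2b' - 2 * (L1a + L2a') - 2 * (L1b + L2b'))
          (-4 * t - 8 * B + 4 * L2a' + 4 * (B + C3) - 2 * (-(M : K)) - 2 * (-(M : K))) :=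
        (((EQ.refl (n := n) (k := 1) (show -4 * (t : K) - 8 * B + 4 * L2a' ∈ O n from
          add_mem (sub_mem (mul_mem (neg_mem h4) (hk t)) (mul_mem h8 hBm)) (mul_mem h4 hL2am))).add
          ((EQ.refl h4).mul hb)).sub ((EQ.refl h2).mul hLa)).sub ((EQ.refl h2).mul hLb)
      have e6 : -4 * t - 8 * B + 4 * L2a' + 4 * (B + C3) - 2 * (-(M : K)) - 2 * (-(M : K)) =
          4 * (C3 + D) + 4 * t := by
        rw [ha, hM]; push_cast; ring
      rw [e6] at s1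
      have s2' := ((EQ.refl (n := n) (k := 1) h4).mul hp).add (EQ.refl (mul_mem h4 (hk t)))
      have e7 : 4 * (-(t : K)) + 4 * t = 0 := by ring
      rw [e7] at s2'
      exact s1.trans s2'
    have h5 := (EQ.refl (n := n) (k := 1) (natCast_mem (O n) j)).mul hstep
    rwa [mul_zero] at h5
  have hw := hz1.w_mul
  rw [mul_zero] at hw
  have h6 := (EQ.refl (n := n) (k := 2) hpre).mul ((EQ.refl (one_mem _)).add hw)
  rw [add_zero, mul_one] at h6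
  exact h6

theorem main (hn : n = 2 * M + 1) (hM : M = 2 * t) (m : ℕ) :
    EQ n 2 (∑ k ∈ range (m * n), a k) (C n * ((T m : ℚ) : K)) := by
  rw [sum_blocks]
  have h := EQ.sum (s := range m) fun j _ => block_sum hn hM j
  have e : ∑ j ∈ range m, C n * ((ch j : K)) ^ 3 = C n * ((T m : ℚ) : K) := by
    rw [← mul_sum, T]
    congr 1
    push_cast
    refine sum_congr rfl fun j _ => ?_
    rw [ch]; push_cast; rw [div_pow]
  rwa [e] at h

end

/-- **Answer to Q1.** -/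
theorem result (m n : ℕ) (_hm : 1 ≤ m) (_hn1 : 1 < n) (hmod : n % 4 = 1) :
    Cong (cyclotomic n ℚ ^ 2) (∑ k ∈ range (m * n), a k) (C n * ((T m : ℚ) : K)) := by
  have : NeZero n := ⟨by omega⟩
  obtain ⟨t, ht⟩ : ∃ t, n = 4 * t + 1 := ⟨n / 4, by omega⟩
  exact num_of_I (main (M := 2 * t) (t := t) (by omega) rfl m).2.2

end Pool.Agent.Results.MP_c25fd9_nt.LiuAnalogue
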